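import Mathlib

set_option autoImplicit false

/-! Polynomials with integer coefficients which remain separable modulo a prime. -/

namespace Pool.Agent.L7h6.HE

open Polynomial Finset

/-- the largest absolute value of a coefficient -/
def ht (f : ℤ[X]) : ℕ := f.support.sup (fun i => (f.coeff i).natAbs)

lemma coeff_le (f : ℤ[X]) (i : ℕ) : (f.coeff i).natAbs ≤ ht f := by
  by_cases h : f.coeff i = 0
  · rw [h]
    simp
  · exact le_sup (f := fun i => (f.coeff i).natAbs) (mem_support_iff.2 h)

lemma ht_pos {f : ℤ[X]} (hf : f ≠ 0) : 1 ≤ ht f := by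
  have h1 : 1 ≤ (f.leadingCoeff).natAbs := Int.natAbs_pos.2 (leadingCoeff_ne_zero.2 hf)
  exact h1.trans (coeff_le f _)

lemma res_ne {f : ℤ[X]} (hd : 1 ≤ f.natDegree) (hs : (f.map (Int.castRingHom ℚ)).Separable) :
    resultant f (derivative f) f.natDegree (f.natDegree - 1) ≠ 0 := by
  intro h
  have h1 := resultant_map_map f (derivative f) f.natDegree (f.natDegree - 1) (Int.castRingHom ℚ)
  rw [h, map_zero, ← derivative_map] at h1
  have h2 : (f.map (Int.castRingHom ℚ)).natDegree = f.natDegree :=
    natDegree_map_eq_of_injective (Int.castRingHom ℚ).injective_int f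
  have h3 : (derivative (f.map (Int.castRingHom ℚ))).natDegree = f.natDegree - 1 := by
    rw [natDegree_derivative, h2]
  have h4 := resultant_ne_zero _ _ hs
  rw [h2, h3] at h4
  exact h4 h1

lemma res_le {f : ℤ[X]} {d : ℕ} (hd : 1 ≤ f.natDegree) (hd' : f.natDegree ≤ d) :
    (resultant f (derivative f) f.natDegree (f.natDegree - 1)).natAbs ≤
      (2 * d).factorial * (d * ht f) ^ (2 * d - 1) := by
  have hf0 : f ≠ 0 := by
    rintro rfl
    simp at hd
  have hht := ht_pos hf0
  have h1 : ∀ i j, (AbsoluteValue.abs : AbsoluteValue ℤ ℤ)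
      (sylvester f (derivative f) f.natDegree (f.natDegree - 1) i j) ≤ ((d * ht f : ℕ) : ℤ) := by
    intro i j
    have e1 : ∀ k, |f.coeff k| ≤ ((d * ht f : ℕ) : ℤ) := by
      intro k
      rw [Int.abs_eq_natAbs]
      have := coeff_le f k
      have h5 : ht f ≤ d * ht f := Nat.le_mul_of_pos_left _ (by omega)
      exact_mod_cast this.trans h5
    have e2 : ∀ k, |(derivative f).coeff k| ≤ ((d * ht f : ℕ) : ℤ) := by
      intro k
      rw [coeff_derivative]
      by_cases hk : k + 1 ≤ f.natDegree
      · rw [abs_mul, Int.abs_eq_natAbs, mul_comm]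
        have h5 := coeff_le f (k + 1)
        have h6 : |((k : ℤ) + 1)| = ((k + 1 : ℕ) : ℤ) := by
          rw [abs_of_nonneg (by positivity)]
          push_cast
          rfl
        rw [h6]
        exact_mod_cast Nat.mul_le_mul (hk.trans hd') h5
      · rw [coeff_eq_zero_of_natDegree_lt (by omega), zero_mul, abs_zero]
        positivity
    have e0 : |(0 : ℤ)| ≤ ((d * ht f : ℕ) : ℤ) := by
      rw [abs_zero]
      positivity
    rw [sylvester, Matrix.of_apply, AbsoluteValue.abs_apply]
    refine Fin.addCases (fun j₁ => ?_) (fun j₁ => ?_) j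
    · rw [Fin.addCases_left]
      split_ifs
      · exact e2 _
      · exact e0
    · rw [Fin.addCases_right]
      split_ifs
      · exact e1 _
      · exact e0
  have h2 := Matrix.det_le h1
  rw [Fintype.card_fin, AbsoluteValue.abs_apply] at h2
  have h3 : (resultant f (derivative f) f.natDegree (f.natDegree - 1)).natAbs ≤
      (f.natDegree + (f.natDegree - 1)).factorial * (d * ht f) ^ (f.natDegree + (f.natDegree - 1)) := by
    have h4 : (((resultant f (derivative f) f.natDegree (f.natDegree - 1)).natAbs : ℕ) : ℤ) ≤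
        (((f.natDegree + (f.natDegree - 1)).factorial * (d * ht f) ^ (f.natDegree + (f.natDegree - 1)) : ℕ) : ℤ) := by
      rw [← Int.abs_eq_natAbs]
      refine h2.trans (le_of_eq ?_)
      rw [nsmul_eq_mul]
      push_cast
      rfl
    exact_mod_cast h4
  refine h3.trans (Nat.mul_le_mul (Nat.factorial_le (by omega)) (Nat.pow_le_pow_right ?_ (by omega)))
  exact Nat.mul_pos (by omega) hht

/-- a nonzero integer, bounded in terms of the coefficients, such that `f` is separable of positive degree modulo
every prime which does not divide it -/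
theorem exists_bad (d : ℕ) : ∃ K : ℕ, 1 ≤ K ∧ ∀ f : ℤ[X], 1 ≤ f.natDegree → f.natDegree ≤ d →
    (f.map (Int.castRingHom ℚ)).Separable →
    ∃ D : ℤ, D ≠ 0 ∧ D.natAbs ≤ K * ht f ^ (2 * d) ∧ ∀ p : ℕ, p.Prime → ¬ (p : ℤ) ∣ D →
      1 ≤ (f.map (Int.castRingHom (ZMod p))).natDegree ∧ (f.map (Int.castRingHom (ZMod p))).Separable := by
  refine ⟨(2 * d).factorial * (d + 1) ^ (2 * d), Nat.mul_pos (Nat.factorial_pos _) (by positivity),
    fun f hd hd' hs => ?_⟩
  have hf0 : f ≠ 0 := by
    rintro rfl
    simp at hd
  have hht := ht_pos hf0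
  refine ⟨f.leadingCoeff * resultant f (derivative f) f.natDegree (f.natDegree - 1),
    mul_ne_zero (leadingCoeff_ne_zero.2 hf0) (res_ne hd hs), ?_, ?_⟩
  · rw [Int.natAbs_mul]
    calc f.leadingCoeff.natAbs * (resultant f (derivative f) f.natDegree (f.natDegree - 1)).natAbs ≤
          ht f * ((2 * d).factorial * (d * ht f) ^ (2 * d - 1)) := Nat.mul_le_mul (coeff_le f _) (res_le hd hd')
      _ = (2 * d).factorial * d ^ (2 * d - 1) * (ht f * ht f ^ (2 * d - 1)) := by
          rw [mul_pow]
          ring
      _ = (2 * d).factorial * d ^ (2 * d - 1) * ht f ^ (2 * d) := by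
          rw [← pow_succ']
          congr 2
          omega
      _ ≤ (2 * d).factorial * (d + 1) ^ (2 * d) * ht f ^ (2 * d) := by
          apply Nat.mul_le_mul_right
          apply Nat.mul_le_mul_left
          exact (Nat.pow_le_pow_left (by omega) _).trans (Nat.pow_le_pow_right (by omega) (by omega))
  · intro p hp hpD
    have : Fact p.Prime := ⟨hp⟩
    have hl : ¬ (p : ℤ) ∣ f.leadingCoeff := fun h => hpD (h.mul_right _)
    have hr : ¬ (p : ℤ) ∣ resultant f (derivative f) f.natDegree (f.natDegree - 1) := fun h => hpD (h.mul_left _)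
    constructor
    · rw [natDegree_map_of_leadingCoeff_ne_zero]
      · exact hd
      · intro h
        apply hl
        rw [← ZMod.intCast_zmod_eq_zero_iff_dvd]
        exact h
    · obtain ⟨a, b, -, -, h1⟩ := exists_mul_add_mul_eq_C_resultant (m := f.natDegree) (n := f.natDegree - 1) f
        (derivative f) le_rfl (natDegree_derivative_le f) (Or.inl (by omega))
      have h2 := congrArg (Polynomial.map (Int.castRingHom (ZMod p))) h1
      rw [Polynomial.map_add, Polynomial.map_mul, Polynomial.map_mul, map_C, ← derivative_map] at h2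
      have h3 : (Int.castRingHom (ZMod p)) (resultant f (derivative f) f.natDegree (f.natDegree - 1)) ≠ 0 := by
        intro h
        apply hr
        rw [← ZMod.intCast_zmod_eq_zero_iff_dvd]
        exact h
      obtain ⟨r, hrr⟩ : ∃ r, r = (Int.castRingHom (ZMod p)) (resultant f (derivative f) f.natDegree
        (f.natDegree - 1)) := ⟨_, rfl⟩
      rw [← hrr] at h2 h3
      refine ⟨C r⁻¹ * a.map (Int.castRingHom (ZMod p)), C r⁻¹ * b.map (Int.castRingHom (ZMod p)), ?_⟩
      have h4 : C r⁻¹ * C r = (1 : (ZMod p)[X]) := by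
        rw [← C_mul, inv_mul_cancel₀ h3, C_1]
      rw [← h4, ← h2]
      ring

end Pool.Agent.L7h6.HE
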