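import Pool.Agent.L7h6.HE.Sv

set_option autoImplicit false

/-! The exceptional abscissas. -/

namespace Pool.Agent.L7h6.HE

open Polynomial Finset

/-- The inequality of Hall and Lang, `h(x) ≤ C₁ h(f)`, for all integral points with the abscissa `x` on all curves
`y² = f(x)`, `1 ≤ deg f ≤ d`, `f` without repeated roots. -/
def HL (d : ℕ) (C₁ : ℝ) (x : ℤ) : Prop :=
  ∀ f : ℤ[X], 1 ≤ f.natDegree → f.natDegree ≤ d → (f.map (Int.castRingHom ℚ)).Separable →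
    ∀ y : ℤ, y ^ 2 = f.eval x →
      Real.log (max |(x : ℝ)| 1) ≤
        C₁ * Real.log (max ((f.support.sup (fun i => (f.coeff i).natAbs) : ℕ) : ℝ) 1)

/-- the polynomial with given coefficients -/
noncomputable def poly {d : ℕ} (a : Fin (d + 1) → ℤ) : ℤ[X] := ∑ i, C (a i) * X ^ (i : ℕ)

lemma poly_coeff {d : ℕ} (f : ℤ[X]) (hf : f.natDegree ≤ d) : poly (fun i : Fin (d + 1) => f.coeff i) = f := by
  unfold poly
  rw [Fin.sum_univ_eq_sum_range (fun i => C (f.coeff i) * X ^ i) (d + 1)]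
  exact (as_sum_range_C_mul_X_pow' f (by omega)).symm

open Classical in
/-- **The number of the exceptional abscissas.** -/
theorem exc_count (d : ℕ) (C₁ : ℝ) (hC₁ : 0 < C₁) : ∃ C : ℝ, 0 < C ∧ ∀ X : ℕ, 2 ≤ X →
    (#{x ∈ Icc (-(X : ℤ)) X | ¬ HL d C₁ x} : ℝ) ≤ C * ((X : ℝ) ^ (1 / 2 + (d + 1) / C₁) * Real.log X) := by
  obtain ⟨c, hc⟩ : ∃ c : ℝ, c = 1 / C₁ := ⟨_, rfl⟩
  have hc0 : 0 < c := by rw [hc]; positivity
  obtain ⟨B, hB⟩ := exists_nat_ge c
  obtain ⟨C, hC0, hC⟩ := squares_bound d B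
  refine ⟨3 ^ (d + 1) * C, by positivity, fun X hX => ?_⟩
  have hXr : (2 : ℝ) ≤ X := by exact_mod_cast hX
  have hX0 : (0 : ℝ) < X := by linarith
  have hX1 : (1 : ℝ) ≤ X := by linarith
  obtain ⟨H, hH⟩ : ∃ H : ℕ, H = ⌊(X : ℝ) ^ c⌋₊ := ⟨_, rfl⟩
  have hXc : 1 ≤ (X : ℝ) ^ c := Real.one_le_rpow hX1 hc0.le
  have hHr : (H : ℝ) ≤ (X : ℝ) ^ c := by rw [hH]; exact Nat.floor_le (by positivity)
  have hHB : H ≤ X ^ B := by
    have h1 : (H : ℝ) ≤ (X : ℝ) ^ (B : ℝ) := hHr.trans (Real.rpow_le_rpow_of_exponent_le hX1 hB)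
    rw [Real.rpow_natCast] at h1
    exact_mod_cast h1
  obtain ⟨A, hA⟩ : ∃ A : Finset (Fin (d + 1) → ℤ), A = Fintype.piFinset (fun _ => Icc (-(H : ℤ)) H) := ⟨_, rfl⟩
  obtain ⟨T, hT⟩ : ∃ T : (Fin (d + 1) → ℤ) → Finset ℤ, T = fun a => {x ∈ Icc (-(X : ℤ)) X |
    IsSquare ((poly a).eval x) ∧ 1 ≤ (poly a).natDegree ∧ (poly a).natDegree ≤ d ∧
      ((poly a).map (Int.castRingHom ℚ)).Separable ∧ ht (poly a) ≤ X ^ B} := ⟨_, rfl⟩
  have hTc : ∀ a, (#(T a) : ℝ) ≤ C * (√(X : ℝ) * Real.log X) := by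
    intro a
    have hlog : 0 ≤ Real.log X := Real.log_nonneg hX1
    rcases (T a).eq_empty_or_nonempty with h | ⟨x₀, hx₀⟩
    · rw [h, card_empty, Nat.cast_zero]
      positivity
    · rw [hT, mem_filter] at hx₀
      obtain ⟨-, -, g1, g2, g3, g4⟩ := hx₀
      apply hC X hX (poly a) g1 g2 g3 g4
      intro x hx
      rw [hT, mem_filter, mem_Icc] at hx
      exact ⟨abs_le.2 hx.1, hx.2.1⟩
  have hsub : {x ∈ Icc (-(X : ℤ)) X | ¬ HL d C₁ x} ⊆ A.biUnion T := by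
    intro x hx
    rw [mem_filter, mem_Icc] at hx
    obtain ⟨⟨hx1, hx2⟩, hx3⟩ := hx
    unfold HL at hx3
    push Not at hx3
    obtain ⟨f, f1, f2, f3, y, f4, f5⟩ := hx3
    have hf0 : f ≠ 0 := by
      rintro rfl
      simp at f1
    have hht := ht_pos hf0
    have hhtr : (1 : ℝ) ≤ ht f := by exact_mod_cast hht
    have f5' : C₁ * Real.log (ht f) < Real.log (max |(x : ℝ)| 1) := by
      have e1 : max ((ht f : ℕ) : ℝ) 1 = ht f := max_eq_left hhtr
      have e2 : ((f.support.sup (fun i => (f.coeff i).natAbs) : ℕ) : ℝ) = ht f := rfl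
      rw [e2, e1] at f5
      exact f5
    have hxX : max |(x : ℝ)| 1 ≤ X := by
      apply max_le _ hX1
      have : |x| ≤ X := abs_le.2 ⟨hx1, hx2⟩
      exact_mod_cast this
    have h1 : C₁ * Real.log (ht f) < Real.log X :=
      lt_of_lt_of_le f5' (Real.log_le_log (lt_of_lt_of_le one_pos (le_max_right _ _)) hxX)
    have h2 : (ht f : ℝ) ≤ (X : ℝ) ^ c := by
      have h3 : Real.log (ht f) ≤ c * Real.log X := by
        rw [hc, one_div, ← div_eq_inv_mul, le_div_iff₀ hC₁]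
        linarith
      rw [← Real.log_rpow hX0] at h3
      exact (Real.log_le_log_iff (by linarith) (by positivity)).1 h3
    have h3 : ht f ≤ H := by
      rw [hH]
      exact Nat.le_floor h2
    rw [mem_biUnion]
    refine ⟨fun i => f.coeff i, ?_, ?_⟩
    · rw [hA, Fintype.mem_piFinset]
      intro i
      rw [mem_Icc]
      have h4 : |f.coeff i| ≤ H := by
        rw [Int.abs_eq_natAbs]
        exact_mod_cast (coeff_le f i).trans h3
      exact abs_le.1 h4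
    · rw [hT]
      simp only
      rw [mem_filter, poly_coeff f f2, mem_Icc]
      exact ⟨⟨hx1, hx2⟩, ⟨y, by rw [← f4, sq]⟩, f1, f2, f3, h3.trans hHB⟩
  have hcard : (#{x ∈ Icc (-(X : ℤ)) X | ¬ HL d C₁ x} : ℝ) ≤ ∑ a ∈ A, (#(T a) : ℝ) := by
    exact_mod_cast (card_le_card hsub).trans card_biUnion_le
  refine hcard.trans ((sum_le_sum fun a _ => hTc a).trans ?_)
  rw [sum_const, nsmul_eq_mul]
  have hAc : (#A : ℝ) ≤ 3 ^ (d + 1) * (X : ℝ) ^ ((d + 1) / C₁) := by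
    have e1 : #A = (2 * H + 1) ^ (d + 1) := by
      rw [hA, Fintype.card_piFinset, prod_const, card_univ, Fintype.card_fin, Int.card_Icc]
      congr 1
      omega
    rw [e1]
    push_cast
    have e2 : (2 * (H : ℝ) + 1) ≤ 3 * (X : ℝ) ^ c := by linarith
    calc (2 * (H : ℝ) + 1) ^ (d + 1) ≤ (3 * (X : ℝ) ^ c) ^ (d + 1) := pow_le_pow_left₀ (by positivity) e2 _
      _ = 3 ^ (d + 1) * (X : ℝ) ^ ((d + 1) / C₁) := by
          rw [mul_pow, ← Real.rpow_natCast ((X : ℝ) ^ c), ← Real.rpow_mul hX0.le, hc]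
          congr 2
          push_cast
          ring
  have hlog : 0 ≤ Real.log X := Real.log_nonneg hX1
  calc (#A : ℝ) * (C * (√(X : ℝ) * Real.log X)) ≤
        3 ^ (d + 1) * (X : ℝ) ^ ((d + 1) / C₁) * (C * (√(X : ℝ) * Real.log X)) :=
        mul_le_mul_of_nonneg_right hAc (by positivity)
    _ = 3 ^ (d + 1) * C * ((X : ℝ) ^ (1 / 2 + (d + 1) / C₁) * Real.log X) := by
        rw [Real.rpow_add hX0, Real.sqrt_eq_rpow]
        ring

end Pool.Agent.L7h6.HE
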