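import Pool.Agent.L7h6.HE.Exc

set_option autoImplicit false

/-! The count of the exceptional abscissas in the forms used by the transfer theorems. -/

namespace Pool.Agent.L7h6.HE

open Finset

/-- both abscissas `n` and `-n` satisfy the inequality -/
def HL2 (d : ℕ) (C₁ : ℝ) (n : ℕ) : Prop := HL d C₁ (n : ℤ) ∧ HL d C₁ (-(n : ℤ))

lemma hl_of_hl2 {d : ℕ} {C₁ : ℝ} {x : ℤ} (h : HL2 d C₁ x.natAbs) : HL d C₁ x := by
  rcases Int.natAbs_eq x with h1 | h1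
  · rw [h1]; exact h.1
  · rw [h1]; exact h.2

lemma hl_mono {d : ℕ} {C₁ C₁' : ℝ} (h : C₁ ≤ C₁') {x : ℤ} (hx : HL d C₁ x) : HL d C₁' x := by
  intro f h1 h2 h3 y hy
  refine (hx f h1 h2 h3 y hy).trans (mul_le_mul_of_nonneg_right h (Real.log_nonneg (le_max_right _ _)))

lemma log_le_rpow {ε : ℝ} (hε : 0 < ε) {X : ℝ} (hX : 1 ≤ X) : Real.log X ≤ 1 / ε * X ^ ε := by
  have h := Real.log_le_rpow_div (by linarith : (0 : ℝ) ≤ X) hε
  rw [div_eq_mul_inv, mul_comm] at h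
  rw [one_div]
  exact h

open Classical in
/-- the number of the exceptional natural numbers -/
theorem bad_card (d : ℕ) (C₁ : ℝ) (hC₁ : 0 < C₁) (ε : ℝ) (hε : 0 < ε) : ∃ C : ℝ, ∀ X : ℕ, 1 ≤ X →
    (((Ioc 0 X).filter (fun t => ¬ HL2 d C₁ t)).card : ℝ) ≤ C * (X : ℝ) ^ (1 / 2 + (d + 1) / C₁ + ε) := by
  obtain ⟨C, hC0, hC⟩ := exc_count d C₁ hC₁
  refine ⟨max 1 (C * (1 / ε)), fun X hX => ?_⟩
  have hXr : (1 : ℝ) ≤ X := by exact_mod_cast hX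
  have hp : 1 ≤ (X : ℝ) ^ (1 / 2 + (d + 1) / C₁ + ε) := Real.one_le_rpow hXr (by positivity)
  rcases Nat.lt_or_ge X 2 with h | h
  · have hX1 : X = 1 := by omega
    have h1 : ((Ioc 0 X).filter (fun t => ¬ HL2 d C₁ t)).card ≤ 1 := by
      refine (card_filter_le _ _).trans ?_
      rw [hX1]
      simp
    have h2 : (((Ioc 0 X).filter (fun t => ¬ HL2 d C₁ t)).card : ℝ) ≤ 1 := by exact_mod_cast h1
    refine h2.trans ?_
    calc (1 : ℝ) = 1 * 1 := by ring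
      _ ≤ _ := mul_le_mul (le_max_left _ _) hp zero_le_one (zero_le_one.trans (le_max_left _ _))
  · have h1 : ((Ioc 0 X).filter (fun t => ¬ HL2 d C₁ t)).card ≤ #{x ∈ Icc (-(X : ℤ)) X | ¬ HL d C₁ x} := by
      refine card_le_card_of_injOn (fun t : ℕ => if HL d C₁ (t : ℤ) then -(t : ℤ) else (t : ℤ)) ?_ ?_
      · intro t ht
        rw [mem_coe, mem_filter, mem_Ioc] at ht
        obtain ⟨⟨ht1, ht2⟩, ht3⟩ := ht
        simp only [coe_filter, mem_Icc, Set.mem_ofPred_eq]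
        split_ifs with h3
        · refine ⟨⟨by omega, by omega⟩, fun h4 => ht3 ⟨h3, h4⟩⟩
        · exact ⟨⟨by omega, by omega⟩, h3⟩
      · intro s _ t _ hst
        have h3 : (if HL d C₁ (s : ℤ) then -(s : ℤ) else (s : ℤ)) = (if HL d C₁ (t : ℤ) then -(t : ℤ) else (t : ℤ)) := hst
        split_ifs at h3 <;> omega
    have h2 : (((Ioc 0 X).filter (fun t => ¬ HL2 d C₁ t)).card : ℝ) ≤ (#{x ∈ Icc (-(X : ℤ)) X | ¬ HL d C₁ x} : ℝ) := by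
      exact_mod_cast h1
    refine h2.trans ((hC X h).trans ?_)
    have h3 : (X : ℝ) ^ (1 / 2 + (d + 1) / C₁) * Real.log X ≤
        (X : ℝ) ^ (1 / 2 + (d + 1) / C₁) * (1 / ε * (X : ℝ) ^ ε) :=
      mul_le_mul_of_nonneg_left (log_le_rpow hε hXr) (by positivity)
    calc C * ((X : ℝ) ^ (1 / 2 + (d + 1) / C₁) * Real.log X)
        ≤ C * ((X : ℝ) ^ (1 / 2 + (d + 1) / C₁) * (1 / ε * (X : ℝ) ^ ε)) := mul_le_mul_of_nonneg_left h3 hC0.le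
      _ = (C * (1 / ε)) * (X : ℝ) ^ (1 / 2 + (d + 1) / C₁ + ε) := by
        have h4 := Real.rpow_add (by linarith : (0 : ℝ) < X) (1 / 2 + (d + 1) / C₁) ε
        rw [h4]
        generalize (X : ℝ) ^ (1 / 2 + (d + 1) / C₁) = A
        ring
      _ ≤ _ := mul_le_mul_of_nonneg_right (le_max_right _ _) (by positivity)

/-- the same as a count of a set -/
theorem bad_ncard (d : ℕ) (C₁ : ℝ) (hC₁ : 0 < C₁) (ε : ℝ) (hε : 0 < ε) : ∃ C : ℝ, ∀ X : ℕ, 1 ≤ X →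
    ({t : ℕ | 1 ≤ t ∧ t ≤ X ∧ True ∧ ¬ HL2 d C₁ t}.ncard : ℝ) ≤ C * (X : ℝ) ^ (1 / 2 + (d + 1) / C₁ + ε) := by
  classical
  obtain ⟨C, hC⟩ := bad_card d C₁ hC₁ ε hε
  refine ⟨C, fun X hX => le_trans (le_of_eq ?_) (hC X hX)⟩
  rw [← Set.ncard_coe_finset]
  congr 2
  ext t
  simp only [coe_filter, mem_Ioc, Set.mem_ofPred_eq, true_and]
  constructor
  · rintro ⟨h1, h2, h3⟩
    exact ⟨⟨h1, h2⟩, h3⟩
  · rintro ⟨⟨h1, h2⟩, h3⟩
    exact ⟨h1, h2, h3⟩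

lemma natAbs_cast (x : ℤ) : ((x.natAbs : ℕ) : ℝ) = |(x : ℝ)| := by
  rw [Nat.cast_natAbs]
  push_cast
  rfl

end Pool.Agent.L7h6.HE
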