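import Pool.Agent.H341R2.WeilSharp
import Pool.Agent.L7h6.HE.Disc

set_option autoImplicit false

/-! The residue classes in which a polynomial takes square values. -/

namespace Pool.Agent.L7h6.HE

open Polynomial Finset

/-- a separable polynomial of positive degree is not a constant times a square -/
lemma not_sq {F : Type*} [Field F] {f : F[X]} (hd : 1 ≤ f.natDegree) (hs : f.Separable) (c : F) (h : F[X]) :
    f ≠ C c * h ^ 2 := by
  intro he
  have h1 : h * h ∣ f := ⟨C c, by rw [he]; ring⟩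
  have h2 : IsUnit h := hs.squarefree h h1
  have h3 : h.natDegree = 0 := natDegree_eq_zero_of_isUnit h2
  have h4 : f.natDegree ≤ 0 := by
    rw [he]
    refine (natDegree_C_mul_le _ _).trans ?_
    rw [natDegree_pow, h3]
  omega

/-- at most about half of the residue classes -/
theorem half_classes {p : ℕ} [Fact p.Prime] (hp2 : p ≠ 2) {d : ℕ} (f : (ZMod p)[X]) (hd : 1 ≤ f.natDegree)
    (hd' : f.natDegree ≤ d) (hs : f.Separable) (U : Finset (ZMod p)) (hU : ∀ x ∈ U, IsSquare (f.eval x)) :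
    (#U : ℝ) ≤ ((p : ℝ) + 2 * d * √(p : ℝ)) / 2 := by
  classical
  have hp := Fact.out (p := p.Prime)
  have hF : ringChar (ZMod p) ≠ 2 := by
    rw [ZMod.ringChar_zmod_n]
    exact hp2
  have hw := Pool.Agent.H341R2.Sharp.weil_sharp hF f hd (fun c h => not_sq hd hs c h)
  rw [ZMod.card] at hw
  have hf0 : f ≠ 0 := by
    rintro rfl
    simp at hd
  -- the zeros
  obtain ⟨Z, hZ⟩ : ∃ Z : Finset (ZMod p), Z = univ.filter (fun x => f.eval x = 0) := ⟨_, rfl⟩
  have hZd : #Z ≤ d := by
    have h1 : Z ⊆ f.roots.toFinset := by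
      intro x hx
      rw [hZ, mem_filter] at hx
      rw [Multiset.mem_toFinset, mem_roots hf0]
      exact hx.2
    exact (card_le_card h1).trans ((Multiset.toFinset_card_le _).trans ((card_roots' f).trans hd'))
  -- `1 + χ` counts
  have h1 : ∀ x : ZMod p, (if x ∈ U then (2 : ℝ) else 0) ≤
      (1 + (quadraticChar (ZMod p) (f.eval x) : ℝ)) + (if x ∈ Z then (1 : ℝ) else 0) := by
    intro x
    by_cases hx : x ∈ U
    · rw [if_pos hx]
      by_cases hz : f.eval x = 0
      · have : x ∈ Z := by rw [hZ, mem_filter]; exact ⟨mem_univ _, hz⟩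
        rw [if_pos this, hz]
        simp only [quadraticChar_zero, Int.cast_zero]
        norm_num
      · have h2 := (quadraticChar_one_iff_isSquare hz).2 (hU x hx)
        rw [h2]
        have : (0 : ℝ) ≤ if x ∈ Z then (1 : ℝ) else 0 := by split_ifs <;> norm_num
        push_cast
        linarith
    · rw [if_neg hx]
      have h2 : (-1 : ℝ) ≤ (quadraticChar (ZMod p) (f.eval x) : ℝ) := by
        by_cases hz : f.eval x = 0
        · rw [hz, quadraticChar_zero]
          norm_num
        · rcases quadraticChar_dichotomy hz with h | h <;> rw [h] <;> norm_num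
      have : (0 : ℝ) ≤ if x ∈ Z then (1 : ℝ) else 0 := by split_ifs <;> norm_num
      linarith
  have h2 := sum_le_sum (fun x (_ : x ∈ (univ : Finset (ZMod p))) => h1 x)
  rw [sum_add_distrib, sum_add_distrib, sum_ite_mem, sum_ite_mem, univ_inter, univ_inter, sum_const, sum_const,
    sum_const, card_univ, ZMod.card, nsmul_eq_mul, nsmul_eq_mul, nsmul_eq_mul, mul_one, mul_one] at h2
  have h3 := le_abs_self (∑ x : ZMod p, (quadraticChar (ZMod p) (f.eval x) : ℝ))
  have hsq : (1 : ℝ) ≤ √(p : ℝ) := by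
    rw [Real.one_le_sqrt]
    exact_mod_cast hp.one_lt.le
  have h4 : ((f.natDegree : ℝ) - 1) * √(p : ℝ) ≤ (d : ℝ) * √(p : ℝ) := by
    apply mul_le_mul_of_nonneg_right _ (by linarith)
    have : (f.natDegree : ℝ) ≤ d := by exact_mod_cast hd'
    linarith
  have h5 : (#Z : ℝ) ≤ d * √(p : ℝ) := by
    have : (#Z : ℝ) ≤ d := by exact_mod_cast hZd
    have h6 : (0 : ℝ) ≤ d := Nat.cast_nonneg _
    nlinarith
  linarith

/-- the bound for the number of the residue classes -/
noncomputable def nu (d p : ℕ) : ℕ := ⌊((p : ℝ) + 2 * d * √(p : ℝ)) / 2⌋₊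

theorem classes {p : ℕ} [Fact p.Prime] (hp2 : p ≠ 2) {d : ℕ} (f : ℤ[X])
    (hd : 1 ≤ (f.map (Int.castRingHom (ZMod p))).natDegree) (hd' : f.natDegree ≤ d)
    (hs : (f.map (Int.castRingHom (ZMod p))).Separable) (T : Finset ℤ) (hT : ∀ x ∈ T, IsSquare (f.eval x)) :
    (T.image (fun y => y % (p : ℤ))).card ≤ nu d p := by
  classical
  obtain ⟨U, hU⟩ : ∃ U : Finset (ZMod p), U = T.image (fun x : ℤ => (x : ZMod p)) := ⟨_, rfl⟩
  have h1 : #(T.image (fun y => y % (p : ℤ))) ≤ #U := by
    apply card_le_card_of_injOn (fun y : ℤ => (y : ZMod p))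
    · intro y hy
      rw [mem_coe, mem_image] at hy
      obtain ⟨x, hx, rfl⟩ := hy
      rw [mem_coe, hU, mem_image]
      refine ⟨x, hx, ?_⟩
      simp
    · intro y hy z hz h
      rw [mem_coe, mem_image] at hy hz
      obtain ⟨x, hx, rfl⟩ := hy
      obtain ⟨x', hx', rfl⟩ := hz
      simp only [ZMod.intCast_mod] at h
      exact (ZMod.intCast_eq_intCast_iff' x x' p).1 h
  refine h1.trans (Nat.le_floor ?_)
  apply half_classes hp2 (f.map (Int.castRingHom (ZMod p))) hd (natDegree_map_le.trans hd') hs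
  intro y hy
  rw [hU, mem_image] at hy
  obtain ⟨x, hx, rfl⟩ := hy
  obtain ⟨z, hz⟩ := hT x hx
  refine ⟨(z : ZMod p), ?_⟩
  have h2 : (f.map (Int.castRingHom (ZMod p))).eval (x : ZMod p) = ((f.eval x : ℤ) : ZMod p) := by
    have := eval_map_apply (Int.castRingHom (ZMod p)) x (p := f)
    simpa using this
  rw [h2, hz]
  push_cast
  rfl

end Pool.Agent.L7h6.HE
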