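import Pool.Agent.L7h6.HE.Res
import Pool.Agent.Helper507.Harm
import Pool.Agent.Erdos456.Mertens

set_option autoImplicit false

/-! The number of the square values of a polynomial, uniformly in the coefficients (larger sieve). -/

namespace Pool.Agent.L7h6.HE

open Polynomial Finset

/-- the terms of the sieve -/
lemma term_le {d p : ℕ} (hp : 2 ≤ p) : 2 * (Real.log p / p) - 4 * d * (Real.log p / (p : ℝ) ^ (3 / 2 : ℝ)) ≤
    Real.log p / nu d p ∧ 0 < nu d p := by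
  have hp0 : (0 : ℝ) < p := by exact_mod_cast (by omega : 0 < p)
  have hp2 : (2 : ℝ) ≤ p := by exact_mod_cast hp
  have hl : 0 ≤ Real.log p := Real.log_nonneg (by linarith)
  have hs : 0 < √(p : ℝ) := Real.sqrt_pos.2 hp0
  have hs2 : √(p : ℝ) * √(p : ℝ) = p := Real.mul_self_sqrt hp0.le
  have hd0 : (0 : ℝ) ≤ d := Nat.cast_nonneg _
  have hv1 : 1 ≤ ((p : ℝ) + 2 * d * √(p : ℝ)) / 2 := by
    have : 0 ≤ 2 * (d : ℝ) * √(p : ℝ) := by positivity
    linarith
  have hpos : 0 < nu d p := by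
    unfold nu
    exact Nat.floor_pos.2 hv1
  refine ⟨?_, hpos⟩
  have hposr : (0 : ℝ) < nu d p := by exact_mod_cast hpos
  have hle : (nu d p : ℝ) ≤ ((p : ℝ) + 2 * d * √(p : ℝ)) / 2 := Nat.floor_le (by positivity)
  have h32 : (p : ℝ) ^ (3 / 2 : ℝ) = p * √(p : ℝ) := by
    rw [Real.sqrt_eq_rpow, ← Real.rpow_one_add' hp0.le (by norm_num)]
    norm_num
  rw [h32]
  have e1 : 2 * (Real.log p / p) - 4 * d * (Real.log p / (p * √(p : ℝ))) =
      Real.log p * (2 * (1 / p) * (1 - 2 * d / √(p : ℝ))) := by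
    field_simp
    ring
  have e2 : Real.log p / nu d p = Real.log p * (1 / nu d p) := by rw [mul_one_div]
  rw [e1, e2]
  apply mul_le_mul_of_nonneg_left _ hl
  rw [le_div_iff₀ hposr]
  rcases le_or_gt (1 - 2 * (d : ℝ) / √(p : ℝ)) 0 with h | h
  · have : 2 * (1 / (p : ℝ)) * (1 - 2 * d / √(p : ℝ)) ≤ 0 :=
      mul_nonpos_of_nonneg_of_nonpos (by positivity) h
    nlinarith
  · calc 2 * (1 / (p : ℝ)) * (1 - 2 * d / √(p : ℝ)) * (nu d p) ≤
          2 * (1 / (p : ℝ)) * (1 - 2 * d / √(p : ℝ)) * (((p : ℝ) + 2 * d * √(p : ℝ)) / 2) := by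
          apply mul_le_mul_of_nonneg_left hle
          positivity
      _ = (1 - 2 * d / √(p : ℝ)) * (1 + 2 * d / √(p : ℝ)) := by
          obtain ⟨t, ht⟩ : ∃ t, t = √(p : ℝ) := ⟨_, rfl⟩
          rw [← ht] at hs hs2 ⊢
          rw [← hs2]
          field_simp
      _ = 1 - (2 * d / √(p : ℝ)) ^ 2 := by ring
      _ ≤ 1 := by
          have : 0 ≤ (2 * d / √(p : ℝ)) ^ 2 := by positivity
          linarith

lemma tail_sum : ∃ S₀ : ℝ, 0 ≤ S₀ ∧ ∀ P : Finset ℕ, ∑ p ∈ P, Real.log p / (p : ℝ) ^ (3 / 2 : ℝ) ≤ S₀ := by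
  have hsum : Summable (fun n : ℕ => 4 * (n : ℝ) ^ (-(5 / 4) : ℝ)) := by
    apply Summable.mul_left
    rw [Real.summable_nat_rpow]
    norm_num
  refine ⟨∑' n : ℕ, 4 * (n : ℝ) ^ (-(5 / 4) : ℝ), tsum_nonneg fun n => by positivity, fun P => ?_⟩
  refine le_trans (sum_le_sum fun n _ => ?_) (hsum.sum_le_tsum P fun n _ => by positivity)
  rcases Nat.eq_zero_or_pos n with h | h
  · rw [h]
    simp
  · have hn : (0 : ℝ) < n := by exact_mod_cast h
    have h1 := Real.log_le_rpow_div hn.le (show (0 : ℝ) < 1 / 4 by norm_num)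
    rw [div_le_iff₀ (by positivity)]
    calc Real.log n ≤ (n : ℝ) ^ (1 / 4 : ℝ) / (1 / 4) := h1
      _ = 4 * ((n : ℝ) ^ (-(5 / 4) : ℝ) * (n : ℝ) ^ (3 / 2 : ℝ)) := by
          rw [← Real.rpow_add hn]
          norm_num
          ring
      _ = 4 * (n : ℝ) ^ (-(5 / 4) : ℝ) * (n : ℝ) ^ (3 / 2 : ℝ) := by ring

lemma log_dvd {D : ℤ} (hD : D ≠ 0) (P : Finset ℕ) (hP : ∀ p ∈ P, p.Prime ∧ (p : ℤ) ∣ D) :
    ∑ p ∈ P, Real.log p ≤ Real.log |(D : ℝ)| := by
  have h1 : P ⊆ D.natAbs.primeFactors := by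
    intro p hp
    rw [Nat.mem_primeFactors]
    exact ⟨(hP p hp).1, Int.natCast_dvd.1 (hP p hp).2, Int.natAbs_ne_zero.2 hD⟩
  have h2 : ∏ p ∈ P, p ∣ D.natAbs :=
    (prod_dvd_prod_of_subset _ _ _ h1).trans (Nat.prod_primeFactors_dvd _)
  have h3 : ∏ p ∈ P, p ≤ D.natAbs := Nat.le_of_dvd (Int.natAbs_pos.2 hD) h2
  have h4 : |(D : ℝ)| = ((D.natAbs : ℕ) : ℝ) := by
    rw [Nat.cast_natAbs, Int.cast_abs]
  rw [h4, ← Real.log_prod (fun p hp => by exact_mod_cast (hP p hp).1.ne_zero)]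
  apply Real.log_le_log
  · exact prod_pos fun p hp => by exact_mod_cast (hP p hp).1.pos
  · rw [← Nat.cast_prod]
    exact_mod_cast h3

/-- **The number of the square values of a polynomial**, uniformly in the coefficients. -/
theorem squares_bound (d B : ℕ) : ∃ C : ℝ, 0 < C ∧ ∀ X : ℕ, 2 ≤ X → ∀ f : ℤ[X], 1 ≤ f.natDegree →
    f.natDegree ≤ d → (f.map (Int.castRingHom ℚ)).Separable → ht f ≤ X ^ B →
    ∀ T : Finset ℤ, (∀ x ∈ T, |x| ≤ X ∧ IsSquare (f.eval x)) → (#T : ℝ) ≤ C * (√(X : ℝ) * Real.log X) := by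
  obtain ⟨K, hK1, hbad⟩ := exists_bad d
  obtain ⟨C_M, hM⟩ := Pool.Agent.Erdos456.Mert.mertens_log
  obtain ⟨S₀, hS0, hS⟩ := tail_sum
  have hCM : 0 ≤ C_M := le_trans (abs_nonneg _) (hM 1 le_rfl)
  have hl2 : 0 < Real.log 2 := Real.log_pos (by norm_num)
  obtain ⟨C₁, hC₁⟩ : ∃ C₁ : ℝ, C₁ = Real.log K / Real.log 2 + 2 * d * B + 1 := ⟨_, rfl⟩
  have hlK : 0 ≤ Real.log K := Real.log_nonneg (by exact_mod_cast hK1)
  have hC1 : 1 ≤ C₁ := by
    rw [hC₁]
    have : 0 ≤ Real.log K / Real.log 2 := by positivity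
    have : (0 : ℝ) ≤ 2 * d * B := by positivity
    linarith
  obtain ⟨K₁, hK₁⟩ : ∃ K₁ : ℝ, K₁ = (Real.log 2 + 3 + 4 * C_M + 4 * d * S₀) / 2 := ⟨_, rfl⟩
  have hK10 : 0 ≤ K₁ := by
    rw [hK₁]
    positivity
  refine ⟨2 * (Real.exp K₁ * (C₁ + 3 / Real.log 2) + 1 / Real.log 2), by positivity, ?_⟩
  intro X hX f hd hd' hs hht T hT
  obtain ⟨D, hD0, hDle, hDp⟩ := hbad f hd hd' hs
  have hXr : (2 : ℝ) ≤ X := by exact_mod_cast hX
  have hX0 : (0 : ℝ) < X := by linarith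
  obtain ⟨L, hL⟩ : ∃ L, L = Real.log X := ⟨_, rfl⟩
  have hL2 : Real.log 2 ≤ L := by
    rw [hL]
    exact Real.log_le_log (by norm_num) hXr
  have hL0 : 0 < L := by linarith
  have hsX : 1 ≤ √(X : ℝ) := by
    rw [Real.one_le_sqrt]
    linarith
  -- the size of `D`
  have hDlog : Real.log |(D : ℝ)| ≤ C₁ * L := by
    have h1 : |(D : ℝ)| ≤ K * (X : ℝ) ^ (2 * d * B) := by
      have h2 : |(D : ℝ)| = ((D.natAbs : ℕ) : ℝ) := by
        rw [Nat.cast_natAbs, Int.cast_abs]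
      rw [h2]
      have h3 : D.natAbs ≤ K * X ^ (2 * d * B) := by
        refine hDle.trans (Nat.mul_le_mul_left _ ?_)
        calc ht f ^ (2 * d) ≤ (X ^ B) ^ (2 * d) := Nat.pow_le_pow_left hht _
          _ = X ^ (2 * d * B) := by rw [← pow_mul]; congr 1; ring
      exact_mod_cast h3
    have hDpos : 0 < |(D : ℝ)| := abs_pos.2 (by exact_mod_cast hD0)
    have h2 := Real.log_le_log hDpos h1
    rw [Real.log_mul (by exact_mod_cast (by omega : K ≠ 0)) (by positivity), Real.log_pow, ← hL] at h2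
    have h3 : Real.log K ≤ Real.log K / Real.log 2 * L := by
      rw [div_mul_eq_mul_div, le_div_iff₀ hl2]
      exact mul_le_mul_of_nonneg_left hL2 hlK
    have h4 : C₁ * L = Real.log K / Real.log 2 * L + (2 * d * B) * L + L := by
      rw [hC₁]
      ring
    push_cast at h2
    rw [h4]
    linarith
  -- the range of the primes
  obtain ⟨Z, hZ⟩ : ∃ Z : ℕ, Z = ⌈C₁ * L⌉₊ + 2 := ⟨_, rfl⟩
  have hZ1 : C₁ * L ≤ Z := by
    rw [hZ]
    push_cast
    linarith [Nat.le_ceil (C₁ * L)]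
  have hZ2 : (Z : ℝ) ≤ C₁ * L + 3 := by
    rw [hZ]
    push_cast
    linarith [(Nat.ceil_lt_add_one (by positivity : 0 ≤ C₁ * L)).le]
  have hZ3 : 2 ≤ Z := by omega
  have hZ0 : (0 : ℝ) < Z := by exact_mod_cast (by omega : 0 < Z)
  obtain ⟨Q, hQ⟩ : ∃ Q : ℕ, Q = ⌈Real.exp K₁ * Z * √(X : ℝ)⌉₊ := ⟨_, rfl⟩
  have hQ1 : Real.exp K₁ * Z * √(X : ℝ) ≤ Q := by
    rw [hQ]
    exact Nat.le_ceil _
  have hQ2 : (Q : ℝ) ≤ Real.exp K₁ * Z * √(X : ℝ) + 1 := by
    rw [hQ]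
    exact (Nat.ceil_lt_add_one (by positivity)).le
  have hEZ : (Z : ℝ) ≤ Q := by
    refine le_trans ?_ hQ1
    have h1 : 1 ≤ Real.exp K₁ := Real.one_le_exp hK10
    have h2 : (Z : ℝ) ≤ Real.exp K₁ * Z := le_mul_of_one_le_left hZ0.le h1
    exact h2.trans (le_mul_of_one_le_right (by positivity) hsX)
  have hZQ : Z ≤ Q := by exact_mod_cast hEZ
  have hQ0 : (0 : ℝ) < Q := by linarith
  obtain ⟨P, hP⟩ : ∃ P : Finset ℕ, P = (Ioc Z Q).filter (fun p : ℕ => p.Prime ∧ ¬ (p : ℤ) ∣ D) := ⟨_, rfl⟩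
  obtain ⟨P', hP'⟩ : ∃ P' : Finset ℕ, P' = (Ioc Z Q).filter (fun p : ℕ => p.Prime ∧ (p : ℤ) ∣ D) := ⟨_, rfl⟩
  have hPm : ∀ p ∈ P, Z < p ∧ p ≤ Q ∧ p.Prime ∧ ¬ (p : ℤ) ∣ D := by
    intro p hp
    rw [hP, mem_filter, mem_Ioc] at hp
    exact ⟨hp.1.1, hp.1.2, hp.2.1, hp.2.2⟩
  -- Mertens
  have hmert : Real.log Q - Real.log Z - 2 * C_M ≤ ∑ p ∈ P, Real.log p / p + ∑ p ∈ P', Real.log p / p := by
    have h1 := (abs_le.1 (hM Q (by omega))).1
    have h2 := (abs_le.1 (hM Z (by omega))).2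
    have h3 : ∑ p ∈ (Icc 1 Q).filter Nat.Prime, Real.log p / p =
        ∑ p ∈ (Icc 1 Z).filter Nat.Prime, Real.log p / p + (∑ p ∈ P, Real.log p / p + ∑ p ∈ P', Real.log p / p) := by
      have e1 : Disjoint P P' := by
        rw [disjoint_left]
        intro p hp hp'
        rw [hP, mem_filter] at hp
        rw [hP', mem_filter] at hp'
        exact hp.2.2 hp'.2.2
      have e2 : Disjoint ((Icc 1 Z).filter Nat.Prime) (P ∪ P') := by
        rw [disjoint_left]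
        intro p hp hp'
        rw [mem_filter, mem_Icc] at hp
        rw [mem_union, hP, hP', mem_filter, mem_filter, mem_Ioc] at hp'
        omega
      rw [← sum_union e1, ← sum_union e2]
      congr 1
      ext p
      rw [mem_union, mem_union, hP, hP', mem_filter, mem_filter, mem_filter, mem_filter, mem_Icc, mem_Icc, mem_Ioc]
      constructor
      · rintro ⟨⟨h5, h6⟩, h7⟩
        by_cases h8 : p ≤ Z
        · exact Or.inl ⟨⟨h5, h8⟩, h7⟩
        · right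
          by_cases h9 : (p : ℤ) ∣ D
          · exact Or.inr ⟨⟨by omega, h6⟩, h7, h9⟩
          · exact Or.inl ⟨⟨by omega, h6⟩, h7, h9⟩
      · rintro (⟨⟨h5, h6⟩, h7⟩ | ⟨⟨h5, h6⟩, h7⟩ | ⟨⟨h5, h6⟩, h7⟩)
        · exact ⟨⟨h5, by omega⟩, h7⟩
        · exact ⟨⟨by omega, h6⟩, h7.1⟩
        · exact ⟨⟨by omega, h6⟩, h7.1⟩
    linarith
  have hP'le : ∑ p ∈ P', Real.log p / p ≤ 1 := by
    have h1 : ∀ p ∈ P', Real.log p / p ≤ Real.log p / Z := by
      intro p hp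
      rw [hP', mem_filter, mem_Ioc] at hp
      have h5 : (Z : ℝ) ≤ p := by exact_mod_cast hp.1.1.le
      have h6 : 0 ≤ Real.log p := Real.log_nonneg (by exact_mod_cast hp.2.1.one_lt.le)
      exact div_le_div_of_nonneg_left h6 hZ0 h5
    refine (sum_le_sum h1).trans ?_
    rw [← sum_div, div_le_one hZ0]
    refine (log_dvd hD0 P' fun p hp => ?_).trans (hDlog.trans hZ1)
    rw [hP', mem_filter] at hp
    exact hp.2
  have hlogQ : K₁ + Real.log Z + L / 2 ≤ Real.log Q := by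
    have h1 := Real.log_le_log (by positivity) hQ1
    rw [Real.log_mul (by positivity) (by positivity), Real.log_mul (by positivity) (by positivity), Real.log_exp,
      Real.log_sqrt hX0.le, ← hL] at h1
    exact h1
  -- the sieve
  have hsieve := Pool.Agent.Helper507.Harm.larger_sieve T P (fun p hp => (hPm p hp).2.2.1) (nu d) (fun p hp => by
      have hpp := (hPm p hp).2.2.1
      have : Fact p.Prime := ⟨hpp⟩
      obtain ⟨g1, g2⟩ := hDp p hpp (hPm p hp).2.2.2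
      exact classes (by have := (hPm p hp).1; omega) f g1 hd' g2 T (fun x hx => (hT x hx).2))
    (fun p hp => (term_le (d := d) (hPm p hp).2.2.1.two_le).2) (2 * X) (by linarith) (fun y hy z hz => by
      have h1 := (hT y hy).1
      have h2 := (hT z hz).1
      have h3 : |y - z| ≤ 2 * X := by
        rw [abs_le] at h1 h2 ⊢
        constructor <;> linarith
      have h4 : ((|y - z| : ℤ) : ℝ) ≤ ((2 * X : ℤ) : ℝ) := by exact_mod_cast h3
      rw [Int.cast_abs] at h4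
      push_cast at h4 ⊢
      exact h4)
  have hlow : Real.log (2 * X) + 1 ≤ ∑ p ∈ P, Real.log p / nu d p := by
    have h1 : ∑ p ∈ P, (2 * (Real.log p / p) - 4 * d * (Real.log p / (p : ℝ) ^ (3 / 2 : ℝ))) ≤
        ∑ p ∈ P, Real.log p / nu d p :=
      sum_le_sum fun p hp => (term_le (hPm p hp).2.2.1.two_le).1
    rw [sum_sub_distrib, ← mul_sum, ← mul_sum] at h1
    have h2 := hS P
    have h3 : 4 * (d : ℝ) * ∑ p ∈ P, Real.log p / (p : ℝ) ^ (3 / 2 : ℝ) ≤ 4 * d * S₀ :=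
      mul_le_mul_of_nonneg_left h2 (by positivity)
    rw [Real.log_mul (by norm_num) hX0.ne', ← hL]
    linarith
  have htheta : ∑ p ∈ P, Real.log p ≤ 2 * Q := by
    have h1 : ∑ p ∈ P, Real.log p ≤ Chebyshev.theta (Q : ℝ) := by
      unfold Chebyshev.theta
      rw [Nat.floor_natCast]
      apply sum_le_sum_of_subset_of_nonneg
      · intro p hp
        have := hPm p hp
        rw [mem_filter, mem_Ioc]
        exact ⟨⟨by omega, this.2.1⟩, this.2.2.1⟩
      · intro p _ _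
        exact Real.log_natCast_nonneg p
    have h2 := Chebyshev.theta_le_log4_mul_x hQ0.le
    have h3 : Real.log 4 ≤ 2 := by
      have h4 : Real.log 4 = 2 * Real.log 2 := by
        rw [show (4 : ℝ) = 2 ^ 2 by norm_num, Real.log_pow]
        norm_num
      have := Real.log_two_lt_d9
      linarith
    have h5 : Real.log 4 * Q ≤ 2 * Q := mul_le_mul_of_nonneg_right h3 hQ0.le
    linarith
  have hT2 : (#T : ℝ) ≤ 2 * Q := by
    rcases T.eq_empty_or_nonempty with h | h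
    · rw [h, card_empty, Nat.cast_zero]
      positivity
    · have hTpos : (0 : ℝ) < #T := by exact_mod_cast h.card_pos
      have h1 : (#T : ℝ) ^ 2 * (Real.log (2 * X) + 1) ≤ #T * (2 * Q) + (#T : ℝ) ^ 2 * Real.log (2 * X) := by
        calc (#T : ℝ) ^ 2 * (Real.log (2 * X) + 1) ≤ (#T : ℝ) ^ 2 * ∑ p ∈ P, Real.log p / nu d p :=
              mul_le_mul_of_nonneg_left hlow (by positivity)
          _ ≤ #T * ∑ p ∈ P, Real.log p + (#T : ℝ) ^ 2 * Real.log (2 * X) := hsieve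
          _ ≤ #T * (2 * Q) + (#T : ℝ) ^ 2 * Real.log (2 * X) := by
              have := mul_le_mul_of_nonneg_left htheta hTpos.le
              linarith
      have h2 : (#T : ℝ) * #T ≤ #T * (2 * Q) := by
        have : (#T : ℝ) ^ 2 = #T * #T := sq _
        linarith
      exact le_of_mul_le_mul_left h2 hTpos
  -- the conclusion
  rw [← hL]
  have hone : 1 ≤ 1 / Real.log 2 * (√(X : ℝ) * L) := by
    have h1 : 1 ≤ 1 / Real.log 2 * L := by
      rw [one_div, ← div_eq_inv_mul, le_div_iff₀ hl2]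
      linarith
    calc (1 : ℝ) ≤ 1 / Real.log 2 * L := h1
      _ ≤ (1 / Real.log 2 * L) * √(X : ℝ) := le_mul_of_one_le_right (by positivity) hsX
      _ = 1 / Real.log 2 * (√(X : ℝ) * L) := by ring
  have hZ4 : (Z : ℝ) ≤ (C₁ + 3 / Real.log 2) * L := by
    have h1 : 3 ≤ 3 / Real.log 2 * L := by
      rw [div_mul_eq_mul_div, le_div_iff₀ hl2]
      linarith
    rw [add_mul]
    linarith
  calc (#T : ℝ) ≤ 2 * Q := hT2
    _ ≤ 2 * (Real.exp K₁ * Z * √(X : ℝ) + 1) := by linarith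
    _ ≤ 2 * (Real.exp K₁ * ((C₁ + 3 / Real.log 2) * L) * √(X : ℝ) + 1 / Real.log 2 * (√(X : ℝ) * L)) := by
        gcongr
    _ = 2 * (Real.exp K₁ * (C₁ + 3 / Real.log 2) + 1 / Real.log 2) * (√(X : ℝ) * L) := by ring

end Pool.Agent.L7h6.HE
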